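import Pool.Agent.H61.KV.TS

set_option autoImplicit false

namespace Pool.Agent.H49.KV

open Topology Set Filter Pool.Agent.H61.KV

theorem pf_BND : T_BND := by
  intro C hC Z hZ hpos R
  by_contra hcon
  push Not at hcon
  choose z hz a b hab hb hin hM using fun n : ℕ => hcon ((n : ℝ) + 1)
  have hapos : ∀ n, 0 < ‖a n‖ := fun n => lt_trans (by positivity) (hM n)
  have hinv : Tendsto (fun n => ‖a n‖⁻¹) atTop (𝓝 0) := by
    refine tendsto_inv_atTop_zero.comp ?_
    refine tendsto_atTop_mono (fun n => (hM n).le) ?_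
    exact tendsto_atTop_add_const_right _ _ tendsto_natCast_atTop_atTop
  have hcomp : IsCompact (Z ×ˢ Metric.sphere (0 : E4) 1) := hZ.prod (isCompact_sphere 0 1)
  obtain ⟨⟨z0, u0⟩, hzu, φ, hφ, hlim⟩ := hcomp.tendsto_subseq
    (x := fun n => (z n, ‖a n‖⁻¹ • a n))
    (fun n => ⟨hz n, by
      simp only [mem_sphere_iff_norm, sub_zero, norm_smul, norm_inv, norm_norm]
      exact inv_mul_cancel₀ (hapos n).ne'⟩)
  obtain ⟨hz0, hu0⟩ := hzu
  simp only [mem_sphere_iff_norm, sub_zero] at hu0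
  have hlz : Tendsto (fun n => z (φ n)) atTop (𝓝 z0) := (continuous_fst.tendsto _).comp hlim
  have hlu : Tendsto (fun n => ‖a (φ n)‖⁻¹ • a (φ n)) atTop (𝓝 u0) :=
    (continuous_snd.tendsto _).comp hlim
  have hinv' : Tendsto (fun n => ‖a (φ n)‖⁻¹) atTop (𝓝 0) := hinv.comp hφ.tendsto_atTop
  have hlb : Tendsto (fun n => ‖a (φ n)‖⁻¹ • b (φ n)) atTop (𝓝 0) := by
    rw [tendsto_zero_iff_norm_tendsto_zero]
    have h1 : Tendsto (fun n => ‖a (φ n)‖⁻¹ * R) atTop (𝓝 0) := by
      simpa using hinv'.mul_const R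
    refine squeeze_zero (fun n => norm_nonneg _) (fun n => ?_) h1
    rw [norm_smul, norm_inv, norm_norm]
    exact mul_le_mul_of_nonneg_left (hb _) (by positivity)
  have hmem : (u0, (0 : E5)) ∈ C := by
    refine hC.closed.mem_of_tendsto (hlu.prodMk_nhds hlb) (Eventually.of_forall fun n => ?_)
    exact hC.smul _ (by positivity) _ (hab (φ n))
  have hne : u0 ≠ 0 := by
    intro h
    rw [h, norm_zero] at hu0
    exact zero_ne_one hu0
  have hpos0 := hpos z0 hz0 u0 hmem hne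
  have hle : inner ℝ z0 u0 ≤ 0 := by
    have h1 : Tendsto (fun n => inner ℝ (z (φ n)) (‖a (φ n)‖⁻¹ • a (φ n))) atTop
        (𝓝 (inner ℝ z0 u0)) := hlz.inner hlu
    have h2 : Tendsto (fun n => ‖a (φ n)‖⁻¹ * R) atTop (𝓝 0) := by
      simpa using hinv'.mul_const R
    refine le_of_tendsto_of_tendsto' h1 h2 fun n => ?_
    rw [inner_smul_right]
    exact mul_le_mul_of_nonneg_left (hin _) (by positivity)
  linarith

end Pool.Agent.H49.KV
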